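import Pool.Agent.H777R4.DM.AsmN
import Pool.Agent.H630R3.DM.FreeP

/-! MP_ec2393_nt: any number of elements of the double shuffle Lie algebra `dm`, homogeneous of large
weight, and linearly independent in `D^r dm / D^{R+1} dm` with `R < 2r`, generate a free Lie algebra. -/

set_option autoImplicit false

namespace Pool.Agent.Results.MP_ec2393_nt.DepthWindowFreeness

open Pool.Agent.H777R4.DM

attribute [local instance 100] LieRing.ofAssociativeRing

/-- Let `1 ≤ r`, `R < 2r` and let `W` be a finite set of weights `w` with `|W| R < w`.  Let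
`ψ₁, …, ψₙ ∈ dm` be homogeneous of weights in `W`, of depth `≥ r`, such that no nonzero linear
combination has depth `> R`.  Then there is an injective linear map `φ` on `ℚ⟨X₁, …, Xₙ⟩` with
`φ Xᵢ = ψᵢ` carrying the bracket of the free Lie algebra on `X₁, …, Xₙ` to the Ihara bracket. -/
theorem result (n r R : ℕ) (W : Finset ℕ) (hr : 1 ≤ r) (hR : R < 2 * r) (hW : ∀ w ∈ W, W.card * R < w)
    (ψ : Fin n → A) (wt : Fin n → ℕ) (hwt : ∀ i, wt i ∈ W) (hdm : ∀ i, IsDM (ψ i))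
    (hψ : ∀ i u, co (ψ i) u ≠ 0 → u.length = wt i ∧ r ≤ u.count 1)
    (hind : ∀ c : Fin n → ℚ, (∀ u, u.count 1 ≤ R → co (∑ i, c i • ψ i) u = 0) → c = 0) :
    ∃ φ : Al (Fin n) →ₗ[ℚ] A, Function.Injective φ ∧ (∀ i, φ (wd [i]) = ψ i) ∧
      ∀ P ∈ LieN n, ∀ Q ∈ LieN n, φ (P * Q - Q * P) = ihara (φ P) (φ Q) :=
  ⟨PhiN ψ,
    dm_main Pool.Agent.H630R3.DM.FreeP.taskFreeP hr hR hW hwt hdm (fun i u hu => (hψ i u hu).1)
      (fun i u hu => (hψ i u hu).2) hind,
    (Pool.Agent.H358R3.DM.taskFinalN n ψ).1, (Pool.Agent.H358R3.DM.taskFinalN n ψ).2⟩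

end Pool.Agent.Results.MP_ec2393_nt.DepthWindowFreeness
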