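import Pool.Agent.H777R4.DM.Asm

/-! MP_ec2393_nt: any two linearly independent elements of the double shuffle Lie algebra `dm` generate,
under the Ihara bracket, a free Lie algebra of rank two. -/

set_option autoImplicit false

namespace Pool.Agent.Results.MP_ec2393_nt.TwoGeneratorFreeness

open Pool.Agent.H777R4.DM

attribute [local instance 100] LieRing.ofAssociativeRing

/-- Let `ψ₁, ψ₂` be linearly independent elements of `dm`.  Then there is an injective linear map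
`φ` on `ℚ⟨x₀, x₁⟩` with `φ x₀ = ψ₁`, `φ x₁ = ψ₂` that carries the Lie bracket `[P, Q] = PQ - QP`
of the free Lie algebra `Lie[x₀, x₁]` to the Ihara bracket. So `ψ₁, ψ₂` generate, under the Ihara
bracket, a free Lie algebra of rank two (the image of `Lie[x₀, x₁]`). -/
theorem result (ψ₁ ψ₂ : A) (h₁ : IsDM ψ₁) (h₂ : IsDM ψ₂) (hli : LinearIndependent ℚ ![ψ₁, ψ₂]) :
    ∃ φ : A →ₗ[ℚ] A, Function.Injective φ ∧ φ (x 0) = ψ₁ ∧ φ (x 1) = ψ₂ ∧
      ∀ P ∈ LieX, ∀ Q ∈ LieX, φ (P * Q - Q * P) = ihara (φ P) (φ Q) :=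
  ⟨Phi ψ₁ ψ₂, phi_injective h₁ h₂ hli, phi_x0 ψ₁ ψ₂, phi_x1 ψ₁ ψ₂,
    fun P hP Q hQ => phi_lie ψ₁ ψ₂ P Q hP hQ⟩

end Pool.Agent.Results.MP_ec2393_nt.TwoGeneratorFreeness
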